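import Pool.Agent.Y255.HL.Ind

/-!
# Differentials of the third kind which are exact
-/

set_option autoImplicit false

namespace Pool.Agent.Y67.SA

open Polynomial

/-- no poles -/
theorem nopole {f v : ℚ[X]} (hf : Squarefree f) (hv : Squarefree v) (hfv : IsCoprime f v) (P Q W : ℚ[X])
    (hPQ : IsCoprime P Q) (hQ : Q ≠ 0)
    (h : v * (2 * f * (derivative P * Q - P * derivative Q) + P * derivative f * Q) = 2 * Q * Q * W) : IsUnit Q := by
  by_contra hu
  obtain ⟨π, hπ, hπQ⟩ := WfDvdMonoid.exists_irreducible_factor hu hQ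
  have hπp : Prime π := hπ.prime
  obtain ⟨k, R, hR, hQR⟩ := WfDvdMonoid.max_power_factor hQ hπ
  have hk : k ≠ 0 := by
    rintro rfl
    apply hR
    rw [pow_zero, one_mul] at hQR
    rw [← hQR]
    exact hπQ
  obtain ⟨j, rfl⟩ := Nat.exists_eq_succ_of_ne_zero hk
  have hπ0 : π ≠ 0 := hπ.ne_zero
  have hπ' : ¬ π ∣ derivative π := by
    intro hd
    have h1 : derivative π = 0 := by
      by_contra hne
      have h2 := natDegree_le_of_dvd hd hne
      have h3 : 0 < π.natDegree := hπ.natDegree_pos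
      have h4 := natDegree_derivative_lt h3.ne'
      omega
    have h3 : 0 < π.natDegree := hπ.natDegree_pos
    have := derivative_eq_zero.1 h1
    omega
  have hπP : ¬ π ∣ P := by
    intro hd
    obtain ⟨u, v, huv⟩ := hPQ
    exact hπ.not_isUnit (isUnit_of_dvd_one (huv ▸ dvd_add (hd.mul_left u) (hπQ.mul_left v)))
  have hnot : ¬ (π ∣ f ∧ π ∣ v) := by
    rintro ⟨h1, h2⟩
    obtain ⟨u, w, huw⟩ := hfv
    exact hπ.not_isUnit (isUnit_of_dvd_one (huw ▸ dvd_add (h1.mul_left u) (h2.mul_left w)))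
  -- the derivative of `Q`
  have hQ' : derivative Q = π ^ j * (((j : ℚ[X]) + 1) * derivative π * R + π * derivative R) := by
    rw [hQR, derivative_mul, derivative_pow]
    simp only [Nat.succ_eq_add_one, Nat.add_sub_cancel]
    push_cast
    simp only [map_add, map_natCast, map_one]
    ring
  have hc : ∀ c : ℚ, c ≠ 0 → ¬ π ∣ C c := by
    intro c hc0 hd
    exact hπ.not_isUnit (isUnit_of_dvd_unit hd (isUnit_C.2 (isUnit_iff_ne_zero.2 hc0)))
  have h2C : (C (2 : ℚ) : ℚ[X]) = 2 := map_ofNat C 2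
  have hj0 : ¬ π ∣ ((j : ℚ[X]) + 1) := by
    have h1 : ((j : ℚ[X]) + 1) = C ((j : ℚ) + 1) := by simp
    rw [h1]
    exact hc _ (by positivity)
  have h20 : ¬ π ∣ (2 : ℚ[X]) := by
    rw [← h2C]
    exact hc 2 (by norm_num)
  -- `π` divides `f v`
  have hπf : π ∣ f * v := by
    have h1 : π ^ j * (π * (v * (2 * f * derivative P * R + P * derivative f * R) -
        2 * π ^ (j + 1) * R * R * W)) =
        π ^ j * (2 * (f * v) * P * (((j : ℚ[X]) + 1) * derivative π * R + π * derivative R)) := by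
      have h2 := h
      rw [hQ', hQR] at h2
      simp only [Nat.succ_eq_add_one] at h2
      linear_combination h2
    have h3 := mul_left_cancel₀ (pow_ne_zero j hπ0) h1
    have h4 : π ∣ 2 * (f * v) * P * (((j : ℚ[X]) + 1) * derivative π * R + π * derivative R) := ⟨_, h3.symm⟩
    rcases hπp.dvd_or_dvd h4 with h5 | h5
    · rcases hπp.dvd_or_dvd h5 with h6 | h6
      · rcases hπp.dvd_or_dvd h6 with h7 | h7
        · exact absurd h7 h20
        · exact h7
      · exact absurd h6 hπP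
    · exfalso
      have h6 : π ∣ ((j : ℚ[X]) + 1) * derivative π * R := by
        have h7 := dvd_sub h5 (Dvd.intro (derivative R) rfl : π ∣ π * derivative R)
        simpa using h7
      rcases hπp.dvd_or_dvd h6 with h7 | h7
      · rcases hπp.dvd_or_dvd h7 with h8 | h8
        · exact hj0 h8
        · exact hπ' h8
      · exact hR h7
  rcases hπp.dvd_or_dvd hπf with hf1 | hv1
  · have hvn : ¬ π ∣ v := fun h1 => hnot ⟨hf1, h1⟩
    obtain ⟨g, rfl⟩ := hf1
    have hπg : ¬ π ∣ g := by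
      rintro ⟨g', rfl⟩
      exact hπ.not_isUnit (hf π ⟨g', by ring⟩)
    have h1 : π ^ (j + 1) * (π * (v * (2 * g * derivative P * R + P * derivative g * R -
        2 * g * P * derivative R) - 2 * π ^ j * R * R * W)) =
        π ^ (j + 1) * (g * P * R * derivative π * (2 * ((j : ℚ[X]) + 1) - 1) * v) := by
      have h2 := h
      rw [hQ', hQR, derivative_mul] at h2
      simp only [Nat.succ_eq_add_one] at h2
      linear_combination h2
    have h3 := mul_left_cancel₀ (pow_ne_zero (j + 1) hπ0) h1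
    have h4 : π ∣ g * P * R * derivative π * (2 * ((j : ℚ[X]) + 1) - 1) * v := ⟨_, h3.symm⟩
    rcases hπp.dvd_or_dvd h4 with h4 | h4
    · rcases hπp.dvd_or_dvd h4 with h5 | h5
      · rcases hπp.dvd_or_dvd h5 with h6 | h6
        · rcases hπp.dvd_or_dvd h6 with h7 | h7
          · rcases hπp.dvd_or_dvd h7 with h8 | h8
            · exact hπg h8
            · exact hπP h8
          · exact hR h7
        · exact hπ' h6
      · have h6 : (2 * ((j : ℚ[X]) + 1) - 1) = C (2 * ((j : ℚ) + 1) - 1) := by simp [h2C]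
        rw [h6] at h5
        refine hc _ ?_ h5
        have : (0 : ℚ) ≤ j := Nat.cast_nonneg j
        linarith
    · exact hvn h4
  · have hfn : ¬ π ∣ f := fun h1 => hnot ⟨h1, hv1⟩
    obtain ⟨w, rfl⟩ := hv1
    have hπw : ¬ π ∣ w := by
      rintro ⟨g', rfl⟩
      exact hπ.not_isUnit (hv π ⟨g', by ring⟩)
    have h1 : π ^ (j + 1) * (π * (w * (2 * f * derivative P * R + P * derivative f * R -
        2 * f * P * derivative R) - 2 * π ^ j * R * R * W)) =
        π ^ (j + 1) * (2 * f * w * P * ((j : ℚ[X]) + 1) * derivative π * R) := by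
      have h2 := h
      rw [hQ', hQR] at h2
      simp only [Nat.succ_eq_add_one] at h2
      linear_combination h2
    have h3 := mul_left_cancel₀ (pow_ne_zero (j + 1) hπ0) h1
    have h4 : π ∣ 2 * f * w * P * ((j : ℚ[X]) + 1) * derivative π * R := ⟨_, h3.symm⟩
    rcases hπp.dvd_or_dvd h4 with h5 | h5
    · rcases hπp.dvd_or_dvd h5 with h6 | h6
      · rcases hπp.dvd_or_dvd h6 with h7 | h7
        · rcases hπp.dvd_or_dvd h7 with h8 | h8
          · rcases hπp.dvd_or_dvd h8 with h9 | h9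
            · rcases hπp.dvd_or_dvd h9 with h10 | h10
              · exact h20 h10
              · exact hfn h10
            · exact hπw h9
          · exact hπP h8
        · exact hj0 h7
      · exact hπ' h6
    · exact hR h5

theorem key2 {f v : ℚ[X]} (hf : Squarefree f) (hv : Squarefree v) (hfv : IsCoprime f v) (P Q W : ℚ[X]) (hQ : Q ≠ 0)
    (hW : W.natDegree + 2 ≤ f.natDegree + v.natDegree)
    (h : 2 * (f * v ^ 2) * (derivative P * Q - P * derivative Q) + P * derivative (f * v ^ 2) * Q = 2 * Q * Q * W) :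
    W = 0 := by
  classical
  by_contra hW0
  have hv0 : v ≠ 0 := hv.ne_zero
  have hPv : v * (2 * f * (derivative (P * v) * Q - (P * v) * derivative Q) + (P * v) * derivative f * Q) =
      2 * Q * Q * W := by
    rw [← h, derivative_mul, derivative_mul, derivative_pow]
    simp only [Nat.cast_ofNat, map_ofNat, Nat.add_one_sub_one, pow_one]
    ring
  obtain ⟨g, P1, Q1, hg0, hco, hP1, rfl⟩ : ∃ g P1 Q1 : ℚ[X], g ≠ 0 ∧ IsCoprime P1 Q1 ∧ P * v = g * P1 ∧ Q = g * Q1 := by
    have hg0 : EuclideanDomain.gcd (P * v) Q ≠ 0 := by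
      intro h0
      exact hQ ((EuclideanDomain.gcd_eq_zero_iff.1 h0).2)
    obtain ⟨P1, hP1⟩ := EuclideanDomain.gcd_dvd_left (P * v) Q
    obtain ⟨Q1, hQ1⟩ := EuclideanDomain.gcd_dvd_right (P * v) Q
    refine ⟨_, P1, Q1, hg0, ?_, hP1, hQ1⟩
    have hb := EuclideanDomain.gcd_eq_gcd_ab (P * v) Q
    refine ⟨EuclideanDomain.gcdA (P * v) Q, EuclideanDomain.gcdB (P * v) Q, ?_⟩
    apply mul_left_cancel₀ hg0
    calc EuclideanDomain.gcd (P * v) Q * (EuclideanDomain.gcdA (P * v) Q * P1 + EuclideanDomain.gcdB (P * v) Q * Q1) =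
          (EuclideanDomain.gcd (P * v) Q * P1) * EuclideanDomain.gcdA (P * v) Q +
          (EuclideanDomain.gcd (P * v) Q * Q1) * EuclideanDomain.gcdB (P * v) Q := by ring
      _ = (P * v) * EuclideanDomain.gcdA (P * v) Q + Q * EuclideanDomain.gcdB (P * v) Q := by rw [← hP1, ← hQ1]
      _ = EuclideanDomain.gcd (P * v) Q * 1 := by rw [mul_one]; exact hb.symm
  have hQ1 : Q1 ≠ 0 := right_ne_zero_of_mul hQ
  have h1 : v * (2 * f * (derivative P1 * Q1 - P1 * derivative Q1) + P1 * derivative f * Q1) = 2 * Q1 * Q1 * W := by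
    apply mul_left_cancel₀ (mul_ne_zero hg0 hg0)
    rw [hP1, derivative_mul, derivative_mul] at hPv
    linear_combination hPv
  have hu := nopole hf hv hfv P1 Q1 W hco hQ1 h1
  have h2 : IsUnit (2 * Q1 * Q1) := by
    have h3 : IsUnit (2 : ℚ[X]) := by
      have h2C : (C (2 : ℚ) : ℚ[X]) = 2 := map_ofNat C 2
      rw [← h2C]
      exact isUnit_C.2 (isUnit_iff_ne_zero.2 two_ne_zero)
    exact (h3.mul hu).mul hu
  obtain ⟨W1, rfl⟩ : v ∣ W := (h2.dvd_mul_left).1 ⟨_, h1.symm⟩
  have hW1 : W1 ≠ 0 := right_ne_zero_of_mul hW0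
  have h3 : 2 * f * (derivative P1 * Q1 - P1 * derivative Q1) + P1 * derivative f * Q1 = 2 * Q1 * Q1 * W1 := by
    apply mul_left_cancel₀ hv0
    rw [h1]
    ring
  apply hW1
  refine Pool.Agent.Y255.HL.keyQ hf P1 Q1 W1 hQ1 ?_ h3
  rw [natDegree_mul hv0 hW1] at hW
  omega

end Pool.Agent.Y67.SA
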