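import Pool.Agent.Y67.SA.Fam
import Pool.Agent.Y67.SA.Key

/-!
# The equation for the integrals of the third kind
-/

set_option autoImplicit false

namespace Pool.Agent.Y67.SA

open Polynomial Pool.Agent.TH600.LC Pool.Agent.Y113 Pool.Agent.Y916.Hy Pool.Agent.Y916.Sa Pool.Agent.Y255.HL

attribute [-instance] DivisionRing.toRatAlgebra

theorem comp_inv (p : ℚ[X]) (t : ℚ) : (p.comp (X - C t)).comp (X + C t) = p := by
  rw [comp_assoc]
  simp

theorem sf_comp (p : ℚ[X]) (hp : Squarefree p) (t : ℚ) : Squarefree (p.comp (X + C t)) := by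
  intro x hx
  have h2 : x.comp (X - C t) * x.comp (X - C t) ∣ p := by
    obtain ⟨y, hy⟩ := hx
    refine ⟨y.comp (X - C t), ?_⟩
    rw [← mul_comp, ← mul_comp, ← hy, comp_assoc]
    simp
  obtain ⟨u, hu⟩ := hp _ h2
  rw [← comp_inv x t]
  have h5 : (x.comp (X - C t)).comp (X + C t) * ((↑(u⁻¹) : ℚ[X]).comp (X + C t)) = 1 := by
    rw [← hu, ← mul_comp, Units.mul_inv, one_comp]
  exact IsUnit.of_mul_eq_one _ h5

theorem sf_C_mul (p : ℚ[X]) (hp : Squarefree p) (c : ℚ) (hc : c ≠ 0) : Squarefree (C c * p) := by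
  intro x hx
  apply hp x
  have h2 : C c⁻¹ * (C c * p) = p := by
    rw [← mul_assoc, ← C_mul, inv_mul_cancel₀ hc, C_1, one_mul]
  rw [← h2]
  exact hx.mul_left _

theorem cop_comp (p q : ℚ[X]) (h : IsCoprime p q) (t : ℚ) : IsCoprime (p.comp (X + C t)) (q.comp (X + C t)) := by
  obtain ⟨a, b, hab⟩ := h
  refine ⟨a.comp (X + C t), b.comp (X + C t), ?_⟩
  rw [← mul_comp, ← mul_comp, ← add_comp, hab, one_comp]

section eqs
variable {DE : Derivation ℚ (EE ℚ) (EE ℚ)} (hDE : ∀ u, DE (emb ℚ u) = emb ℚ (PowerSeries.derivative ℚ u))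
  (hrt : S_rt)

include hrt in
theorem Rrel (P : ℤ[X]) (hP : 0 < P.leadingCoeff) (g : ℕ) :
    th (Rt (phi P g)) ^ 2 * aeval ta (fg P g) = algebraMap ℚ (EE ℚ) (P.leadingCoeff : ℚ) * ta ^ (fg P g).natDegree := by
  have h1 := (hrt (phi P g) (by rw [phi_coeff]; exact hP)).1
  have h2 := congrArg th h1
  rw [map_mul, map_pow, th_C, phi_coeff] at h2
  rw [← th_phi, ← mul_assoc, h2, fg_natDegree]

include hDE in
/-- the equation for the integrals of the third kind -/
theorem eq_int3 (f u v : ℚ[X]) (hfuv : f = u * v ^ 2) (hu : Squarefree u) (hv : Squarefree v) (huv : IsCoprime u v)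
    (hodd : Odd f.natDegree) (lc : ℚ) (hlc0 : lc ≠ 0) (R : EE ℚ)
    (hrel : R ^ 2 * aeval ta f = algebraMap ℚ (EE ℚ) lc * ta ^ f.natDegree) (W : ℚ[X])
    (hW : W.natDegree + 2 ≤ u.natDegree + v.natDegree) (b : EE ℚ) (hb : b ∈ K0)
    (h : DD DE (b * (om * R)) = -(aeval ta W) * (om ^ f.natDegree * R)) : W = 0 := by
  have hR0 : R ≠ 0 := by
    intro h0
    rw [h0, zero_pow two_ne_zero, zero_mul] at hrel
    exact mul_ne_zero (by rw [Ne, map_eq_zero]; exact hlc0) (pow_ne_zero _ ta_ne) hrel.symm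
  have hfa0 : aeval ta f ≠ 0 := by
    intro h0
    rw [h0, mul_zero] at hrel
    exact mul_ne_zero (by rw [Ne, map_eq_zero]; exact hlc0) (pow_ne_zero _ ta_ne) hrel.symm
  have hR2 : R ^ 2 ∈ K0 := by
    have h2 : R ^ 2 = algebraMap ℚ (EE ℚ) lc * ta ^ f.natDegree * (aeval ta f)⁻¹ := by
      rw [← hrel, mul_assoc, mul_inv_cancel₀ hfa0, mul_one]
    rw [h2]
    exact mul_mem (mul_mem (K0.algebraMap_mem _) (pow_mem ta_K0 _)) (inv_mem (poly_K0 _))
  set n := f.natDegree with hn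
  have hlcE0 : algebraMap ℚ (EE ℚ) lc ≠ 0 := by
    rw [Ne, map_eq_zero]
    exact hlc0
  obtain ⟨m, hm⟩ := hodd
  set S : EE ℚ := algebraMap ℚ (EE ℚ) lc * (om ^ n * R)⁻¹ with hS
  have hon : om ^ n * R ≠ 0 := mul_ne_zero (pow_ne_zero _ om_ne) hR0
  have hS0 : S ≠ 0 := mul_ne_zero hlcE0 (inv_ne_zero hon)
  have hSR : S * (om ^ n * R) = algebraMap ℚ (EE ℚ) lc := by
    rw [hS, mul_assoc, inv_mul_cancel₀ hon, mul_one]
  have hot : om ^ 2 * ta = 1 := by rw [om_sq, inv_mul_cancel₀ ta_ne]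
  have hotn : (om ^ n) ^ 2 * ta ^ n = 1 := by
    rw [← pow_mul, mul_comm n 2, pow_mul, ← mul_pow, hot, one_pow]
  set ff : ℚ[X] := C lc * f with hf
  have hSS : S * S = aeval ta ff := by
    have h1 : (om ^ n * R) * (om ^ n * R) ≠ 0 := mul_ne_zero hon hon
    apply mul_right_cancel₀ h1
    rw [hf, map_mul, aeval_C]
    linear_combination (S * (om ^ n * R) + algebraMap ℚ (EE ℚ) lc) * hSR -
      (algebraMap ℚ (EE ℚ) lc * (om ^ n) ^ 2) * hrel - algebraMap ℚ (EE ℚ) lc * algebraMap ℚ (EE ℚ) lc * hotn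
  have hf0 : aeval ta ff ≠ 0 := by
    rw [← hSS]
    exact mul_ne_zero hS0 hS0
  have hDS : 2 * aeval ta ff * DD DE S = aeval ta (derivative ff) * S := by
    have h1 : DD DE (S * S) = aeval ta (derivative ff) := by rw [hSS, DD_aeval hDE]
    rw [Derivation.leibniz, smul_eq_mul] at h1
    rw [← h1, ← hSS]
    ring
  -- the coefficient
  set hh : EE ℚ := b * (om ^ 2) ^ (m + 1) * R ^ 2 * (algebraMap ℚ (EE ℚ) lc)⁻¹ with hhh
  have hhK : hh ∈ K0 := mul_mem (mul_mem (mul_mem hb (pow_mem om_sq_K0 _)) hR2)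
    (inv_mem (K0.algebraMap_mem lc))
  have hhS : b * (om * R) = hh * S := by
    have h1 : hh * S * (om ^ n * R) = b * (om ^ 2) ^ (m + 1) * R ^ 2 := by
      rw [mul_assoc, hSR, hhh, mul_assoc, inv_mul_cancel₀ hlcE0, mul_one]
    apply mul_right_cancel₀ hon
    rw [h1, ← pow_mul]
    have h2 : om ^ (2 * (m + 1)) = om * om ^ n := by
      rw [hm, ← pow_succ']
      congr 1
    rw [h2]
    ring
  obtain ⟨P, Q, hQ, hPQ⟩ := (mem_K0 hh).1 hhK
  have hQ' := congrArg (DD DE) hPQ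
  rw [Derivation.leibniz, DD_aeval hDE, DD_aeval hDE, smul_eq_mul, smul_eq_mul] at hQ'
  have hmain : DD DE (hh * S) * S = -(aeval ta W) * algebraMap ℚ (EE ℚ) lc := by
    rw [← hhS, h, ← hSR]
    ring
  rw [Derivation.leibniz, smul_eq_mul, smul_eq_mul] at hmain
  have hfin : 2 * ff * (derivative P * Q - P * derivative Q) + P * derivative ff * Q = 2 * Q * Q * (-(C lc * W)) := by
    rw [← sub_eq_zero]
    apply aeval_ta_inj
    apply (mul_eq_zero.1 _).resolve_left hf0
    simp only [map_sub, map_mul, map_add, map_neg, map_ofNat, aeval_C]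
    have e1 : (hh * DD DE S + S * DD DE hh) * S = -(aeval ta W) * algebraMap ℚ (EE ℚ) lc := hmain
    -- multiply by 2 f Q^2
    have e2 : 2 * aeval ta ff * (aeval ta Q) ^ 2 * ((hh * DD DE S + S * DD DE hh) * S) =
        aeval ta ff * (2 * aeval ta ff * (aeval ta (derivative P) * aeval ta Q - aeval ta P * aeval ta (derivative Q)) +
          aeval ta P * aeval ta (derivative ff) * aeval ta Q) := by
      have e3 : 2 * aeval ta ff * (aeval ta Q) ^ 2 * ((hh * DD DE S + S * DD DE hh) * S) =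
          (aeval ta Q) ^ 2 * hh * (2 * aeval ta ff * DD DE S) * S +
            2 * aeval ta ff * (S * S) * ((aeval ta Q) * (aeval ta Q * DD DE hh)) := by ring
      rw [e3, hDS, hSS]
      have e4 : aeval ta Q * DD DE hh = aeval ta (derivative P) - hh * aeval ta (derivative Q) := by
        linear_combination hQ'
      rw [e4]
      have e5 : (aeval ta Q) ^ 2 * hh * (aeval ta (derivative ff) * S) * S =
          aeval ta Q * (hh * aeval ta Q) * aeval ta (derivative ff) * (S * S) := by ring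
      rw [e5, hSS, hPQ]
      linear_combination (-2 * aeval ta ff * aeval ta ff * aeval ta (derivative Q)) * hPQ
    rw [e1] at e2
    linear_combination -e2
  have hfe : ff = (C lc * u) * v ^ 2 := by rw [hf, hfuv, mul_assoc]
  rw [hfe] at hfin
  have hcop : IsCoprime (C lc * u) v := by
    have hun : IsUnit (C lc : ℚ[X]) := isUnit_C.2 (isUnit_iff_ne_zero.2 hlc0)
    exact (isCoprime_mul_unit_left_left hun u v).2 huv
  have h0 := key2 (sf_C_mul u hu lc hlc0) hv hcop P Q _ hQ (by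
    rw [natDegree_C_mul hlc0, natDegree_neg, natDegree_C_mul hlc0]
    exact hW) hfin
  rw [neg_eq_zero, mul_eq_zero] at h0
  exact h0.resolve_left (C_ne_zero.2 hlc0)

end eqs

end Pool.Agent.Y67.SA
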