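import Pool.Agent.Y255.HL.Ind
import Pool.Agent.Y916.SStm

/-!
# Families of square roots of rational functions
-/

set_option autoImplicit false

namespace Pool.Agent.Y67.SA

open Polynomial Pool.Agent.TH600.LC Pool.Agent.Y113 Pool.Agent.Y916.Hy Pool.Agent.Y916.Sa Pool.Agent.Y255.HL

attribute [-instance] DivisionRing.toRatAlgebra

/-- square roots of `c x^n / f(x)`, `n = deg f` -/
structure Fam {κ : Type} (f : κ → ℚ[X]) (c : κ → ℚ) (r : κ → EE ℚ) : Prop where
  rel : ∀ i, r i ^ 2 * aeval ta (f i) = algebraMap ℚ (EE ℚ) (c i) * ta ^ (f i).natDegree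
  c0 : ∀ i, c i ≠ 0

/-- the square roots, and the square root of `z` -/
noncomputable def ro {κ : Type} (r : κ → EE ℚ) : Option κ → EE ℚ
  | none => om
  | some i => r i

section fam
variable {κ : Type} {f : κ → ℚ[X]} {c : κ → ℚ} {r : κ → EE ℚ} (H : Fam f c r)

include H

theorem fam_ne0 (i : κ) : algebraMap ℚ (EE ℚ) (c i) * ta ^ (f i).natDegree ≠ 0 :=
  mul_ne_zero (by rw [Ne, map_eq_zero]; exact H.c0 i) (pow_ne_zero _ ta_ne)

theorem fam_f (i : κ) : aeval ta (f i) ≠ 0 := by
  intro h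
  have h1 := H.rel i
  rw [h, mul_zero] at h1
  exact fam_ne0 H i h1.symm

theorem fam_r (i : κ) : r i ≠ 0 := by
  intro h
  have h1 := H.rel i
  rw [h, zero_pow two_ne_zero, zero_mul] at h1
  exact fam_ne0 H i h1.symm

theorem fam_f0 (i : κ) : f i ≠ 0 := by
  intro h
  apply fam_f H i
  rw [h, map_zero]

theorem fam_sq (i : κ) : r i ^ 2 ∈ K0 := by
  have h2 : r i ^ 2 = algebraMap ℚ (EE ℚ) (c i) * ta ^ (f i).natDegree * (aeval ta (f i))⁻¹ := by
    rw [← H.rel i, mul_assoc, mul_inv_cancel₀ (fam_f H i), mul_one]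
  rw [h2]
  exact mul_mem (mul_mem (K0.algebraMap_mem _) (pow_mem ta_K0 _)) (inv_mem (poly_K0 _))

theorem ro_ne (o : Option κ) : ro r o ≠ 0 := by
  cases o with
  | none => exact om_ne
  | some l => exact fam_r H l

theorem ro_sq (o : Option κ) : ro r o ^ 2 ∈ K0 := by
  cases o with
  | none => exact om_sq_K0
  | some l => exact fam_sq H l

omit H in
theorem prod_opt' [DecidableEq κ] {M : Type} [CommMonoid M] (f : Option κ → M) (T : Finset (Option κ)) :
    ∏ o ∈ T, f o = (if none ∈ T then f none else 1) * ∏ l ∈ Finset.eraseNone T, f (some l) := by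
  have h1 : ∏ l ∈ Finset.eraseNone T, f (some l) = ∏ o ∈ T.erase none, f o := by
    rw [← Finset.map_some_eraseNone, Finset.prod_map]
    rfl
  rw [h1]
  split_ifs with h
  · rw [Finset.mul_prod_erase T f h]
  · rw [Finset.erase_eq_of_notMem h, one_mul]

theorem poly_rel [DecidableEq κ] (T : Finset (Option κ)) (hx : pr (ro r) T ∈ K0) : ∃ A B : ℚ[X], B ≠ 0 ∧
    A ^ 2 * (X ^ (if none ∈ T then 1 else 0) * ∏ i ∈ Finset.eraseNone T, f i) =
      B ^ 2 * (C (∏ i ∈ Finset.eraseNone T, c i) * X ^ (∑ i ∈ Finset.eraseNone T, (f i).natDegree)) := by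
  obtain ⟨A, B, hB, hAB⟩ := (mem_K0 _).1 hx
  refine ⟨A, B, hB, ?_⟩
  set T' := Finset.eraseNone T with hT'
  have hsq : pr (ro r) T ^ 2 * (ta ^ (if none ∈ T then 1 else 0) * ∏ l ∈ T', aeval ta (f l)) =
      algebraMap ℚ (EE ℚ) (∏ i ∈ T', c i) * ta ^ (∑ i ∈ T', (f i).natDegree) := by
    have h1 : pr (ro r) T ^ 2 = (if none ∈ T then om ^ 2 else 1) * ∏ l ∈ T', r l ^ 2 := by
      unfold pr
      rw [← Finset.prod_pow, prod_opt']
      rfl
    have h2 : (if none ∈ T then om ^ 2 else 1) * ta ^ (if none ∈ T then 1 else 0) = 1 := by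
      split_ifs
      · rw [pow_one, om_sq, inv_mul_cancel₀ ta_ne]
      · rw [pow_zero, one_mul]
    calc _ = ((if none ∈ T then om ^ 2 else 1) * ta ^ (if none ∈ T then 1 else 0)) *
          ∏ l ∈ T', (r l ^ 2 * aeval ta (f l)) := by
          rw [h1, Finset.prod_mul_distrib]
          ring
      _ = _ := by
          rw [h2, one_mul, Finset.prod_congr rfl (fun l _ => H.rel l), Finset.prod_mul_distrib, map_prod,
            Finset.prod_pow_eq_pow_sum]
  rw [← sub_eq_zero]
  apply aeval_ta_inj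
  simp only [map_sub, map_mul, map_pow, map_prod, aeval_X, aeval_C, ← hAB]
  rw [map_prod] at hsq
  linear_combination (aeval ta B) ^ 2 * hsq

theorem none_notMem [DecidableEq κ] (T : Finset (Option κ)) (hT : none ∈ T) : pr (ro r) T ∉ K0 := by
  intro hx
  obtain ⟨A, B, hB, h⟩ := poly_rel H T hx
  rw [if_pos hT, pow_one] at h
  have hprod : ∏ i ∈ Finset.eraseNone T, f i ≠ 0 := Finset.prod_ne_zero_iff.2 fun i _ => fam_f0 H i
  have hc : ∏ i ∈ Finset.eraseNone T, c i ≠ 0 := Finset.prod_ne_zero_iff.2 fun i _ => H.c0 i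
  have hA : A ≠ 0 := by
    rintro rfl
    rw [zero_pow two_ne_zero, zero_mul] at h
    exact mul_ne_zero (pow_ne_zero 2 hB) (mul_ne_zero (C_ne_zero.2 hc) (pow_ne_zero _ X_ne_zero)) h.symm
  have h2 := congrArg natDegree h
  rw [natDegree_mul (pow_ne_zero 2 hA) (mul_ne_zero X_ne_zero hprod), natDegree_pow,
    natDegree_mul X_ne_zero hprod, natDegree_X, natDegree_prod _ _ (fun i _ => fam_f0 H i),
    natDegree_mul (pow_ne_zero 2 hB) (mul_ne_zero (C_ne_zero.2 hc) (pow_ne_zero _ X_ne_zero)), natDegree_pow,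
    natDegree_C_mul hc, natDegree_X_pow] at h2
  omega

end fam

/-- square-free polynomials with square product are proportional -/
theorem sf_assoc (u w A B : ℚ[X]) (hu : Squarefree u) (hw : Squarefree w) (hB : B ≠ 0) (c : ℚ) (hc : c ≠ 0)
    (h : A ^ 2 * (u * w) = B ^ 2 * C c) : ∃ c' : ℚ, c' ≠ 0 ∧ u = C c' * w := by
  have hu0 : u ≠ 0 := hu.ne_zero
  have hA : A ≠ 0 := by
    rintro rfl
    rw [zero_pow two_ne_zero, zero_mul] at h
    exact mul_ne_zero (pow_ne_zero 2 hB) (C_ne_zero.2 hc) h.symm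
  have h1 : A ^ 2 ∣ (B * C c) ^ 2 := ⟨u * w * C c, by linear_combination (-C c) * h⟩
  obtain ⟨D, hD⟩ := (UniqueFactorizationMonoid.pow_dvd_pow_iff_dvd two_ne_zero).1 h1
  have h2 : u * w * C c = D ^ 2 := by
    apply mul_left_cancel₀ (pow_ne_zero 2 hA)
    have h3 : (A * D) ^ 2 = (B * C c) ^ 2 := by rw [hD]
    linear_combination (C c) * h - h3
  have h3 : u ∣ D := (hu.dvd_pow_iff_dvd two_ne_zero).1 ⟨w * C c, by rw [← h2]; ring⟩
  obtain ⟨E, rfl⟩ := h3
  have h4 : w * C c = u * (E * E) := by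
    apply mul_left_cancel₀ hu0
    linear_combination h2
  have h5 : w = E * E * (u * C c⁻¹) := by
    have h6 : C c * C c⁻¹ = (1 : ℚ[X]) := by rw [← C_mul, mul_inv_cancel₀ hc, C_1]
    linear_combination (C c⁻¹) * h4 - w * h6
  have h6 : IsUnit E := hw E ⟨_, h5⟩
  obtain ⟨e, he, rfl⟩ := Polynomial.isUnit_iff.1 h6
  have he0 : e ≠ 0 := he.ne_zero
  refine ⟨c * (e * e)⁻¹, mul_ne_zero hc (inv_ne_zero (mul_ne_zero he0 he0)), ?_⟩
  have h7 : (C (e * e) * C (e * e)⁻¹ : ℚ[X]) = 1 := by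
    rw [← C_mul, mul_inv_cancel₀ (mul_ne_zero he0 he0), C_1]
  rw [C_mul, mul_assoc, mul_comm (C (e * e)⁻¹), ← mul_assoc, mul_comm (C c), h4, ← C_mul]
  linear_combination (-u) * h7

/-- a polynomial with a period is constant -/
theorem no_period (p : ℚ[X]) (h : ℚ) (hh : h ≠ 0) (hp : p.comp (X + C h) = p) : p.natDegree = 0 := by
  have h1 : ∀ n : ℕ, p.eval (n * h) = p.eval 0 := by
    intro n
    induction n with
    | zero => simp
    | succ n ih =>
      rw [← ih]
      conv_rhs => rw [← hp]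
      rw [eval_comp]
      congr 1
      simp
      ring
  have h2 : p = C (p.eval 0) := by
    apply Polynomial.eq_of_infinite_eval_eq
    have h3 : (Set.range fun n : ℕ => (n : ℚ) * h).Infinite := by
      apply Set.infinite_range_of_injective
      intro a b hab
      exact_mod_cast mul_right_cancel₀ hh hab
    refine h3.mono ?_
    rintro _ ⟨n, rfl⟩
    simp only [Set.mem_setOf_eq, eval_C]
    exact h1 n
  rw [h2, natDegree_C]

section J
variable {κ : Type} [Fintype κ] [DecidableEq κ] {f : κ → ℚ[X]} {c : κ → ℚ} {r : κ → EE ℚ} (H : Fam f c r)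

include H

/-- a maximal independent set of square roots -/
theorem exists_J : ∃ J : Finset κ, (∀ T : Finset (Option κ), T ⊆ Finset.insertNone J → T.Nonempty →
    pr (ro r) T ∉ K0) ∧ ∀ i, ∃ T : Finset κ, T ⊆ J ∧ r i * ∏ j ∈ T, r j ∈ K0 := by
  classical
  set S : Finset (Finset κ) := Finset.univ.filter fun J => ∀ T : Finset (Option κ), T ⊆ Finset.insertNone J →
    T.Nonempty → pr (ro r) T ∉ K0 with hS
  have hne : S.Nonempty := by
    refine ⟨∅, Finset.mem_filter.2 ⟨Finset.mem_univ _, ?_⟩⟩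
    intro T hT hT0
    apply none_notMem H
    obtain ⟨o, ho⟩ := hT0
    have h1 := hT ho
    cases o with
    | none => exact ho
    | some i => simp at h1
  obtain ⟨J, hJ, hmax⟩ := Finset.exists_max_image S Finset.card hne
  have hJ' := (Finset.mem_filter.1 hJ).2
  refine ⟨J, hJ', ?_⟩
  intro i
  by_cases hi : i ∈ J
  · refine ⟨{i}, Finset.singleton_subset_iff.2 hi, ?_⟩
    rw [Finset.prod_singleton, ← sq]
    exact fam_sq H i
  · have h1 : insert i J ∉ S := by
      intro h
      have h2 := hmax _ h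
      rw [Finset.card_insert_of_notMem hi] at h2
      omega
    have h2 : ∃ T : Finset (Option κ), T ⊆ Finset.insertNone (insert i J) ∧ T.Nonempty ∧ pr (ro r) T ∈ K0 := by
      by_contra hcon
      push_neg at hcon
      exact h1 (Finset.mem_filter.2 ⟨Finset.mem_univ _, hcon⟩)
    obtain ⟨T, hT, hT0, hTK⟩ := h2
    have hnone : none ∉ T := fun h => none_notMem H T h hTK
    have hiT : some i ∈ T := by
      by_contra hiT
      refine hJ' T ?_ hT0 hTK
      intro o ho
      have h3 := hT ho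
      cases o with
      | none => simp
      | some k =>
        rw [Finset.some_mem_insertNone] at h3 ⊢
        rcases Finset.mem_insert.1 h3 with h4 | h4
        · exact absurd (h4 ▸ ho) hiT
        · exact h4
    refine ⟨(Finset.eraseNone T).erase i, ?_, ?_⟩
    · intro k hk
      have h3 := hT (Finset.mem_eraseNone.1 (Finset.mem_of_mem_erase hk))
      rw [Finset.some_mem_insertNone] at h3
      exact (Finset.mem_insert.1 h3).resolve_left (Finset.ne_of_mem_erase hk)
    · rw [Finset.mul_prod_erase _ _ (Finset.mem_eraseNone.2 hiT)]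
      have h3 := hTK
      unfold pr at h3
      rw [prod_opt', if_neg hnone, one_mul] at h3
      exact h3

end J

/-- the square roots in the set -/
theorem pr_sub {κ : Type} [DecidableEq κ] (r : κ → EE ℚ) (J : Finset κ) (T : Finset (Option {i // i ∈ J})) :
    pr (ro fun i : {i // i ∈ J} => r i.1) T =
      pr (ro r) (T.map (Function.Embedding.optionMap (Function.Embedding.subtype fun i => i ∈ J))) := by
  unfold pr
  rw [Finset.prod_map]
  refine Finset.prod_congr rfl fun o _ => ?_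
  cases o with
  | none => rfl
  | some i => rfl

theorem ns_sub {κ : Type} [DecidableEq κ] (r : κ → EE ℚ) (J : Finset κ)
    (hJ : ∀ T : Finset (Option κ), T ⊆ Finset.insertNone J → T.Nonempty → pr (ro r) T ∉ K0)
    (T : Finset (Option {i // i ∈ J})) (hT : T.Nonempty) : pr (ro fun i : {i // i ∈ J} => r i.1) T ∉ K0 := by
  rw [pr_sub]
  refine hJ _ ?_ (by rw [Finset.map_nonempty]; exact hT)
  intro o ho
  obtain ⟨x, hx, rfl⟩ := Finset.mem_map.1 ho
  cases x with
  | none => simp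
  | some i => simp

/-- a rational power series square root gives a square of a polynomial -/
theorem sqr_of_mem (u : PowerSeries ℚ) (Φ : ℤ[X]) (hΦ : u ^ 2 * ps Φ = PowerSeries.C ((Φ.coeff 0 : ℤ) : ℚ))
    (h0 : Φ.coeff 0 ≠ 0) (hu : th u ∈ K0) : Sqr Φ := by
  obtain ⟨A, Q, hQ, h⟩ := (mem_K0 _).1 hu
  set M := max A.natDegree Q.natDegree with hM
  have : Invertible ta := invertibleOfNonzero ta_ne
  have h2 : (⅟ta : EE ℚ) = om ^ 2 := by rw [invOf_eq_inv, om_sq]
  have hr : ∀ p : ℚ[X], p.natDegree ≤ M → th ((p.reflect M : ℚ[X]) : PowerSeries ℚ) * ta ^ M = aeval ta p := by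
    intro p hp
    have h1 := eval₂_reflect_mul_pow (algebraMap ℚ (EE ℚ)) ta M p hp
    rw [h2] at h1
    rw [th_poly]
    exact h1
  rw [← hr A (le_max_left _ _), ← hr Q (le_max_right _ _), ← mul_assoc] at h
  have h3 := mul_right_cancel₀ (pow_ne_zero M ta_ne) h
  rw [← map_mul] at h3
  have h4 := th_inj h3
  set A' := A.reflect M with hA'
  set Q' := Q.reflect M with hQ'
  have hQ0 : Q' ≠ 0 := by
    rw [hQ', Ne, reflect_eq_zero_iff]
    exact hQ
  have hps : ps Φ = ((Φ.map (Int.castRingHom ℚ) : ℚ[X]) : PowerSeries ℚ) := rfl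
  set c : ℚ := ((Φ.coeff 0 : ℤ) : ℚ) with hc
  have hc0 : c ≠ 0 := Int.cast_ne_zero.2 h0
  have h5 : A' ^ 2 * Φ.map (Int.castRingHom ℚ) = Q' ^ 2 * C c := by
    apply Polynomial.coe_injective ℚ
    rw [Polynomial.coe_mul, Polynomial.coe_mul, Polynomial.coe_pow, Polynomial.coe_pow, Polynomial.coe_C, ← h4, ← hps]
    linear_combination ((Q' : PowerSeries ℚ)) ^ 2 * hΦ
  have hA0 : A' ≠ 0 := by
    intro h6
    rw [h6, zero_pow two_ne_zero, zero_mul] at h5
    exact mul_ne_zero (pow_ne_zero 2 hQ0) (C_ne_zero.2 hc0) h5.symm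
  have h6 : A' ^ 2 ∣ (Q' * C c) ^ 2 := ⟨Φ.map (Int.castRingHom ℚ) * C c, by linear_combination (-C c) * h5⟩
  obtain ⟨D, hD⟩ := (UniqueFactorizationMonoid.pow_dvd_pow_iff_dvd two_ne_zero).1 h6
  refine ⟨D, ?_⟩
  apply mul_left_cancel₀ (pow_ne_zero 2 hA0)
  have h7 : (A' * D) ^ 2 = (Q' * C c) ^ 2 := by rw [hD]
  linear_combination (C c) * h5 - h7

end Pool.Agent.Y67.SA
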