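import Pool.Agent.Y67.SA.Eqs
import Pool.Agent.Y255.HL.Main

/-!
# Functional independence for several curves with poles (job 1155, MP_4b482e_nt)
-/

set_option autoImplicit false

namespace Pool.Agent.Y67.SA

open Polynomial Pool.Agent.TH600.LC Pool.Agent.Y113 Pool.Agent.Y916.Hy Pool.Agent.Y916.Sa Pool.Agent.Y255.HL

attribute [-instance] DivisionRing.toRatAlgebra

/-! ## the curves -/

/-- the polynomial with multiple roots -/
noncomputable def PP {s : ℕ} (F q : Fin s → ℤ[X]) (a : Fin s) : ℤ[X] := F a * q a ^ 2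

/-- the number of integrals -/
noncomputable def mm {s : ℕ} (F q : Fin s → ℤ[X]) (a : Fin s) : ℕ := (F a).natDegree - 1 + (q a).natDegree

/-- the polynomials at the shifts -/
noncomputable def fQ {s N : ℕ} (F q : Fin s → ℤ[X]) (g : Fin N → ℕ) (i : Fin s × Fin N) : ℚ[X] :=
  fg (PP F q i.1) (g i.2)

/-- the leading coefficients -/
noncomputable def cQ {s N : ℕ} (F q : Fin s → ℤ[X]) (i : Fin s × Fin N) : ℚ := ((PP F q i.1).leadingCoeff : ℚ)

/-- the square roots -/
noncomputable def rQ {s N : ℕ} (F q : Fin s → ℤ[X]) (g : Fin N → ℕ) (i : Fin s × Fin N) : EE ℚ :=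
  th (Rt (phi (PP F q i.1) (g i.2)))

section curves
variable {s N : ℕ} {F q : Fin s → ℤ[X]} (hG : ∀ a, GoodP (F a) (q a)) (g : Fin N → ℕ)

include hG

theorem lc_pos (a : Fin s) : 0 < (PP F q a).leadingCoeff := by
  rw [PP, leadingCoeff_mul, leadingCoeff_pow]
  exact mul_pos (hG a).pos (pow_pos (hG a).qpos 2)

theorem nd_PP (a : Fin s) : (PP F q a).natDegree = (F a).natDegree + 2 * (q a).natDegree := by
  have h1 : F a ≠ 0 := by
    intro h
    have := (hG a).pos
    rw [h, leadingCoeff_zero] at this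
    exact lt_irrefl _ this
  have h2 : q a ≠ 0 := by
    intro h
    have := (hG a).qpos
    rw [h, leadingCoeff_zero] at this
    exact lt_irrefl _ this
  rw [PP, natDegree_mul h1 (pow_ne_zero 2 h2), natDegree_pow]

theorem odd_PP (a : Fin s) : Odd (PP F q a).natDegree := by
  rw [nd_PP hG a]
  exact (hG a).odd.add_even (even_two_mul _)

omit hG in
theorem fQ_eq (i : Fin s × Fin N) : fQ F q g i = fg (F i.1) (g i.2) * fg (q i.1) (g i.2) ^ 2 := by
  rw [fQ, PP, fg, fg, fg, Polynomial.map_mul, Polynomial.map_pow, mul_comp, pow_comp]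

theorem fam (hrt : S_rt) : Fam (fQ F q g) (cQ F q) (rQ F q g) :=
  ⟨fun i => Rrel hrt (PP F q i.1) (lc_pos hG i.1) (g i.2), fun i => Int.cast_ne_zero.2 (lc_pos hG i.1).ne'⟩

theorem dist (hD : Dist F) (hg : Function.Injective g) (hrt : S_rt) (i k : Fin s × Fin N) (hik : i ≠ k) :
    rQ F q g i * rQ F q g k ∉ K0 := by
  classical
  intro hx
  have hfam := fam hG g hrt
  have hx' : pr (ro (rQ F q g)) ({some i, some k} : Finset (Option (Fin s × Fin N))) ∈ K0 := by
    unfold pr
    rw [Finset.prod_pair (by simpa using hik)]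
    exact hx
  obtain ⟨A, B, hB, h⟩ := poly_rel hfam _ hx'
  have he : Finset.eraseNone ({some i, some k} : Finset (Option (Fin s × Fin N))) = {i, k} := by
    ext x
    simp
  rw [he, if_neg (by simp), pow_zero, one_mul, Finset.prod_pair hik, Finset.prod_pair hik, Finset.sum_pair hik] at h
  have hdeg : ∀ i : Fin s × Fin N, Odd (fQ F q g i).natDegree := by
    intro i
    rw [fQ, fg_natDegree]
    exact odd_PP hG i.1
  obtain ⟨M, hM⟩ := (hdeg i).add_odd (hdeg k)
  have h2 : (A * fg (q i.1) (g i.2) * fg (q k.1) (g k.2)) ^ 2 * (fg (F i.1) (g i.2) * fg (F k.1) (g k.2)) =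
      (B * X ^ M) ^ 2 * C (cQ F q i * cQ F q k) := by
    rw [hM] at h
    rw [fQ_eq, fQ_eq] at h
    have h3 : (X : ℚ[X]) ^ (M + M) = X ^ M * X ^ M := pow_add _ _ _
    rw [h3] at h
    linear_combination h
  obtain ⟨c, hc, hcc⟩ := sf_assoc _ _ _ _ (sf_comp _ (hG i.1).sf _) (sf_comp _ (hG k.1).sf _)
    (mul_ne_zero hB (pow_ne_zero _ X_ne_zero)) _ (mul_ne_zero (hfam.c0 i) (hfam.c0 k)) h2
  have hcc2 : (F i.1).map (Int.castRingHom ℚ) =
      C c * ((F k.1).map (Int.castRingHom ℚ)).comp (X + C ((g k.2 : ℚ) - (g i.2 : ℚ))) := by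
    have h3 := congrArg (fun p : ℚ[X] => p.comp (X - C (g i.2 : ℚ))) hcc
    simp only [fg, mul_comp, C_comp, comp_assoc, add_comp, X_comp, sub_add_cancel, comp_X] at h3
    rw [h3]
    congr 2
    rw [C_sub]
    ring
  by_cases hab : i.1 = k.1
  · have hg' : g k.2 ≠ g i.2 := by
      intro h3
      exact hik (Prod.ext hab (hg h3).symm)
    rw [hab] at hcc2
    have hlead := congrArg leadingCoeff hcc2
    rw [leadingCoeff_mul, leadingCoeff_C, leadingCoeff_comp (by rw [natDegree_X_add_C]; exact one_ne_zero),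
      leadingCoeff_X_add_C, one_pow, mul_one] at hlead
    have hF0 : ((F k.1).map (Int.castRingHom ℚ)).leadingCoeff ≠ 0 := by
      rw [Ne, leadingCoeff_eq_zero]
      exact (hG k.1).sf.ne_zero
    have hc1 : c = 1 := by
      have h3 : c * ((F k.1).map (Int.castRingHom ℚ)).leadingCoeff =
        1 * ((F k.1).map (Int.castRingHom ℚ)).leadingCoeff := by rw [one_mul]; exact hlead.symm
      exact mul_right_cancel₀ hF0 h3
    rw [hc1, C_1, one_mul] at hcc2
    have h3 := no_period _ _ (by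
      rw [sub_ne_zero]
      exact_mod_cast hg') hcc2.symm
    rw [natDegree_map_eq_of_injective (Int.cast_injective (α := ℚ))] at h3
    have h4 := (hG k.1).odd
    rw [h3] at h4
    exact absurd h4 (by decide)
  · refine hD i.1 k.1 hab ((g k.2 : ℤ) - (g i.2 : ℤ)) (c.den : ℤ) c.num (by exact_mod_cast c.den_nz)
      (Rat.num_ne_zero.2 hc) ?_
    apply Polynomial.map_injective (Int.castRingHom ℚ) Int.cast_injective
    rw [Polynomial.map_mul, Polynomial.map_mul, map_comp, hcc2, ← mul_assoc]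
    have h3 : ((c.den : ℤ) : ℚ) * c = c.num := by
      have h4 := Rat.den_mul_eq_num c
      exact_mod_cast h4
    have h5 : (C (c.den : ℤ)).map (Int.castRingHom ℚ) * C c = (C c.num).map (Int.castRingHom ℚ) := by
      rw [map_C, map_C, ← C_mul]
      congr 1
    rw [h5]
    simp

end curves

/-! ## algebraic independence -/

/-- the primitives -/
noncomputable def yy {s N : ℕ} (P : Fin s → ℤ[X]) (m : Fin s → ℕ) (g : Fin N → ℕ) : Fin N × Tau m → EE ℚ
  | (l, Sum.inl aj) => om ^ (qe (P aj.1) aj.2) * th (Yg P m (g l) (Sum.inl aj))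
  | (l, Sum.inr u) => th (Yg P m (g l) (Sum.inr u))

/-- the factor between the powers of the integrals and of the power series -/
noncomputable def ka {s N : ℕ} (P : Fin s → ℤ[X]) (m : Fin s → ℕ) : Fin N × Tau m → EE ℚ
  | (_, Sum.inl aj) => om ^ (-(qe (P aj.1) aj.2))
  | (_, Sum.inr _) => 1

theorem ka_ne {s N : ℕ} (P : Fin s → ℤ[X]) (m : Fin s → ℕ) (x : Fin N × Tau m) : ka P m x ≠ 0 := by
  rcases x with ⟨l, aj | u⟩
  · exact zpow_ne_zero _ om_ne
  · exact one_ne_zero

theorem ka_yy {s N : ℕ} (P : Fin s → ℤ[X]) (m : Fin s → ℕ) (g : Fin N → ℕ) (x : Fin N × Tau m) :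
    th (Yg P m (g x.1) x.2) = ka P m x * yy P m g x := by
  rcases x with ⟨l, aj | u⟩
  · change _ = om ^ (-(qe (P aj.1) aj.2)) * (om ^ (qe (P aj.1) aj.2) * th (Yg P m (g l) (Sum.inl aj)))
    rw [← mul_assoc, ← zpow_add₀ om_ne, neg_add_cancel, zpow_zero, one_mul]
  · exact (one_mul _).symm

theorem prod_tl {κ : Type} [DecidableEq κ] (r : κ → EE ℚ) (J T : Finset κ) (hT : T ⊆ J) :
    pr (ro fun i : {i // i ∈ J} => r i.1) (Finset.insertNone (T.subtype fun i => i ∈ J)) = om * ∏ j ∈ T, r j := by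
  unfold pr
  rw [Finset.prod_insertNone]
  congr 1
  exact Finset.prod_subtype_of_mem r (fun x hx => hT hx)

theorem prod_so {κ : Type} [DecidableEq κ] (r : κ → EE ℚ) (J T : Finset κ) (hT : T ⊆ J) :
    pr (ro fun i : {i // i ∈ J} => r i.1) ((T.subtype fun i => i ∈ J).map Function.Embedding.some) =
      ∏ j ∈ T, r j := by
  unfold pr
  rw [Finset.prod_map]
  exact Finset.prod_subtype_of_mem r (fun x hx => hT hx)

theorem sub_inj {κ : Type} [DecidableEq κ] (J T T' : Finset κ) (hT : T ⊆ J) (hT' : T' ⊆ J)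
    (h : (T.subtype fun i => i ∈ J) = T'.subtype fun i => i ∈ J) : T = T' := by
  rw [← Finset.subtype_map_of_mem (p := fun i => i ∈ J) (fun x hx => hT hx), h,
    Finset.subtype_map_of_mem (fun x hx => hT' hx)]

section main
variable {DE : Derivation ℚ (EE ℚ) (EE ℚ)} (hDE : ∀ u, DE (emb ℚ u) = emb ℚ (PowerSeries.derivative ℚ u))

/-- the derivation on the field of the square roots -/
noncomputable def DM {ι : Type} [Fintype ι] [DecidableEq ι] (r : ι → EE ℚ) (h0 : ∀ o, r o ≠ 0)
    (h2 : ∀ o, r o ^ 2 ∈ K0) : Derivation ℚ (Lf K0 r) (Lf K0 r) :=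
  Derivation.mk' { toFun := fun x => ⟨DD DE x, D_Lf K0 (DD DE) (DD_K0 hDE) h0 h2 x x.2⟩
                   map_add' := fun x y => Subtype.ext (by simp)
                   map_smul' := fun c x => Subtype.ext (by simp) }
    (fun a b => Subtype.ext (by simp [Derivation.leibniz]))

include hDE in
theorem DD_yy {s N : ℕ} (P : Fin s → ℤ[X]) (hP : ∀ a, Odd (P a).natDegree) (m : Fin s → ℕ) (g : Fin N → ℕ) (l : Fin N)
    (aj : Σ a, Fin (m a)) : DD DE (yy P m g (l, Sum.inl aj)) =
    -(aeval ta ((X + C (g l : ℚ)) ^ (aj.2 : ℕ))) * (om ^ (P aj.1).natDegree * th (Rt (phi (P aj.1) (g l)))) := by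
  refine DD_int hDE (P aj.1).natDegree (g l) aj.2 (qe (P aj.1) aj.2) ?_ rfl _
  obtain ⟨m, hm⟩ := hP aj.1
  refine ⟨(m : ℤ) - 1 - ((aj.2 : ℕ) : ℤ), ?_⟩
  have h1 : ((P aj.1).natDegree : ℤ) = 2 * m + 1 := by exact_mod_cast hm
  rw [qe, h1]
  ring

include hDE in
theorem indep {s N : ℕ} {F q : Fin s → ℤ[X]} (hG : ∀ a, GoodP (F a) (q a)) (g : Fin N → ℕ) (hD : Dist F)
    (hg : Function.Injective g) (hg1 : ∀ l, 1 ≤ g l) (hrt : S_rt) (J : Finset (Fin s × Fin N))
    (hJ : ∀ T : Finset (Option (Fin s × Fin N)), T ⊆ Finset.insertNone J → T.Nonempty → pr (ro (rQ F q g)) T ∉ K0)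
    (T : Fin s × Fin N → Finset (Fin s × Fin N)) (hTJ : ∀ i, T i ⊆ J)
    (hTK : ∀ i, rQ F q g i * ∏ j ∈ T i, rQ F q g j ∈ K0) :
    AlgebraicIndependent (Lf K0 (ro fun i : {i // i ∈ J} => rQ F q g i.1)) (yy (PP F q) (mm F q) g) := by
  classical
  have hfam := fam hG g hrt
  have hfamJ : Fam (fun i : {i // i ∈ J} => fQ F q g i.1) (fun i => cQ F q i.1) (fun i => rQ F q g i.1) :=
    ⟨fun i => hfam.rel i.1, fun i => hfam.c0 i.1⟩
  set r := rQ F q g with hr
  set rJ := ro fun i : {i // i ∈ J} => r i.1 with hrJ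
  set L := Lf K0 rJ with hL
  have hr0 : ∀ o, rJ o ≠ 0 := ro_ne hfamJ
  have hr2 : ∀ o, rJ o ^ 2 ∈ K0 := ro_sq hfamJ
  have hns : ∀ T : Finset (Option {i // i ∈ J}), T.Nonempty → pr rJ T ∉ K0 := ns_sub r J hJ
  -- the coefficients
  set pT : Fin s × Fin N → EE ℚ := fun i => ∏ j ∈ T i, r j with hpT
  have hpT0 : ∀ i, pT i ≠ 0 := fun i => Finset.prod_ne_zero_iff.2 fun j _ => fam_r hfam j
  have hpT2 : ∀ i, pT i ^ 2 ∈ K0 := by
    intro i
    rw [hpT]
    simp only
    rw [← Finset.prod_pow]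
    exact prod_mem fun j _ => fam_sq hfam j
  set ka' : Fin s × Fin N → EE ℚ := fun i => (r i * pT i) * (pT i ^ 2)⁻¹ with hka'
  have hkaK : ∀ i, ka' i ∈ K0 := fun i => mul_mem (hTK i) (inv_mem (hpT2 i))
  have hkar : ∀ i, r i = ka' i * pT i := by
    intro i
    rw [hka']
    have := hpT0 i
    field_simp
  have hka0 : ∀ i, ka' i ≠ 0 := by
    intro i h
    have h1 := hkar i
    rw [h, zero_mul] at h1
    exact fam_r hfam i h1
  have hTinj : ∀ i k, T i = T k → i = k := by
    intro i k hik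
    by_contra hne
    apply dist hG g hD hg hrt i k hne
    have h1 : pT i = pT k := by rw [hpT]; simp only; rw [hik]
    rw [← hr, hkar i, hkar k, h1]
    have h2 : ka' i * pT k * (ka' k * pT k) = ka' i * ka' k * pT k ^ 2 := by ring
    rw [h2]
    exact mul_mem (mul_mem (hkaK i) (hkaK k)) (hpT2 k)
  set tl : Fin s × Fin N → Finset (Option {i // i ∈ J}) :=
    fun i => Finset.insertNone ((T i).subtype fun i => i ∈ J) with htl
  have htl_ne : ∀ i, tl i ≠ ∅ := by
    intro i h
    have h1 : none ∈ tl i := by rw [htl]; simp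
    rw [h] at h1
    simp at h1
  have htl_inj : ∀ i k, tl i = tl k → i = k := by
    intro i k h
    apply hTinj
    apply sub_inj J _ _ (hTJ i) (hTJ k)
    exact Finset.insertNone.injective h
  have hpr_tl : ∀ i, pr rJ (tl i) = om * pT i := fun i => prod_tl r J (T i) (hTJ i)
  have homL : om ∈ L := r_mem K0 (r := rJ) none
  have hrL : ∀ i, r i ∈ L := by
    intro i
    rw [hkar i]
    refine mul_mem (K_le_Lf K0 (hkaK i)) ?_
    rw [hpT]
    exact prod_mem fun j hj => r_mem K0 (r := rJ) (some ⟨j, hTJ i hj⟩)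
  have hlog : ∀ l, DD DE (th (PowerSeries.mk fun m => - ((-(g l : ℚ)) ^ m / m))) ∈ K0 := by
    intro l
    have h1 := DD_log hDE (g l)
    have h3 : ta + (g l : EE ℚ) ≠ 0 := by
      intro h
      have h4 : aeval ta (X + C (g l : ℚ)) = 0 := by
        rw [map_add, aeval_X, aeval_C]
        rw [← h]
        simp
      have h5 := congrArg natDegree (aeval_ta_inj _ h4)
      rw [natDegree_X_add_C, natDegree_zero] at h5
      exact one_ne_zero h5
    have h2 : DD DE (th (PowerSeries.mk fun m => - ((-(g l : ℚ)) ^ m / m))) =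
        -(g l : EE ℚ) * (ta * (ta + (g l : EE ℚ)))⁻¹ := by
      rw [← h1, mul_assoc, mul_inv_cancel₀ (mul_ne_zero ta_ne h3), mul_one]
    rw [h2]
    exact mul_mem (neg_mem (natCast_mem K0 _)) (inv_mem (mul_mem ta_K0 (add_mem ta_K0 (natCast_mem K0 _))))
  have hDyy : ∀ l (aj : Σ a, Fin (mm F q a)), DD DE (yy (PP F q) (mm F q) g (l, Sum.inl aj)) =
      -(aeval ta ((X + C (g l : ℚ)) ^ (aj.2 : ℕ))) * (om ^ (PP F q aj.1).natDegree * r (aj.1, l)) :=
    fun l aj => DD_yy hDE (PP F q) (odd_PP hG) (mm F q) g l aj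
  have hw : ∀ i, DD DE (yy (PP F q) (mm F q) g i) ∈ L := by
    rintro ⟨l, j | u⟩
    · rw [hDyy]
      exact mul_mem (neg_mem (K_le_Lf K0 (poly_K0 _))) (mul_mem (pow_mem homL _) (hrL _))
    · exact K_le_Lf K0 (hlog l)
  refine Pool.Agent.W253.LF.t_OST ℚ L (EE ℚ) (DM hDE rJ hr0 hr2) (DD DE) (fun x => rfl) (DD_const hDE) _ _
    (fun i => ⟨DD DE (yy (PP F q) (mm F q) g i), hw i⟩) (fun i => rfl) ?_
  intro c f hf
  have hoe : ∀ i : Fin s × Fin N, ∃ e, (PP F q i.1).natDegree = 2 * e + 1 := fun i => odd_PP hG i.1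
  choose e he using hoe
  obtain ⟨a, ha, hfa⟩ := mem_Lf K0 hr2 (f : EE ℚ) f.2
  have hb : ∀ T, ∃ b ∈ K0, DD DE (a T * pr rJ T) = b * pr rJ T := by
    intro T
    obtain ⟨l, hl, hD⟩ := root_eig K0 (DD DE) (DD_K0 hDE) hr0 hr2 T
    refine ⟨DD DE (a T) + a T * l, add_mem (DD_K0 hDE _ (ha T)) (mul_mem (ha T) hl), ?_⟩
    rw [Derivation.leibniz, hD, smul_eq_mul, smul_eq_mul]
    ring
  choose b hbK hb using hb
  set W : Fin s × Fin N → ℚ[X] := fun i => ∑ j : Fin (mm F q i.1), C (c (i.2, Sum.inl ⟨i.1, j⟩)) *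
    (X + C (g i.2 : ℚ)) ^ (j : ℕ) with hW
  set γ : Fin s × Fin N → EE ℚ := fun i => -(aeval ta (W i)) * (om ^ 2) ^ (e i) * ka' i with hγ
  set β : EE ℚ := ∑ l, algebraMap ℚ (EE ℚ) (c (l, Sum.inr ())) *
    DD DE (th (PowerSeries.mk fun m => - ((-(g l : ℚ)) ^ m / m))) with hβ
  have hγK : ∀ i, γ i ∈ K0 := fun i => mul_mem (mul_mem (neg_mem (poly_K0 _)) (pow_mem om_sq_K0 _)) (hkaK i)
  have hβK : β ∈ K0 := sum_mem fun l _ => mul_mem (K0.algebraMap_mem _) (hlog l)
  have hγpr : ∀ i, γ i * pr rJ (tl i) = -(aeval ta (W i)) * (om ^ (PP F q i.1).natDegree * r i) := by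
    intro i
    have h1 := hkar i
    have h2 : om ^ (2 * e i + 1) = (om ^ 2) ^ (e i) * om := by rw [pow_succ, pow_mul]
    rw [hpr_tl, he i, h2, hγ, h1]
    ring
  have hDf : DD DE (f : EE ℚ) = ∑ i, γ i * pr rJ (tl i) + β := by
    have h1 : (f : EE ℚ) = ∑ i, algebraMap ℚ (EE ℚ) (c i) * yy (PP F q) (mm F q) g i := hf.symm
    rw [h1, map_sum, Fintype.sum_prod_type, hβ, Fintype.sum_prod_type_right, ← Finset.sum_add_distrib]
    refine Finset.sum_congr rfl fun l _ => ?_
    rw [Fintype.sum_sum_type, Fintype.sum_sigma]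
    congr 1
    · refine Finset.sum_congr rfl fun a _ => ?_
      rw [hγpr, hW]
      simp only [map_sum, map_mul, aeval_C, neg_mul, Finset.sum_mul, ← Finset.sum_neg_distrib]
      refine Finset.sum_congr rfl fun j _ => ?_
      rw [Derivation.leibniz, Derivation.map_algebraMap, smul_zero, add_zero, smul_eq_mul, hDyy]
      ring
    · rw [Fintype.sum_unique, Derivation.leibniz, Derivation.map_algebraMap, smul_zero, add_zero, smul_eq_mul]
      rfl
  have hDf2 : DD DE (f : EE ℚ) = ∑ T, b T * pr rJ T := by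
    rw [hfa, map_sum]
    exact Finset.sum_congr rfl fun T _ => hb T
  set cc : Finset (Option {i // i ∈ J}) → EE ℚ := fun T =>
    b T - (if T = ∅ then β else 0) - ∑ i, (if T = tl i then γ i else 0) with hcc
  have hccK : ∀ T, cc T ∈ K0 := by
    intro T
    refine sub_mem (sub_mem (hbK T) ?_) (sum_mem fun l _ => ?_)
    · split_ifs
      · exact hβK
      · exact zero_mem _
    · split_ifs
      · exact hγK l
      · exact zero_mem _
  have hsum : ∑ T, cc T * pr rJ T = 0 := by
    have h1 : ∑ T, (if T = ∅ then β else 0) * pr rJ T = β := by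
      rw [Finset.sum_eq_single ∅]
      · rw [if_pos rfl, pr_empty, mul_one]
      · intro T _ hT
        rw [if_neg hT, zero_mul]
      · intro h; exact absurd (Finset.mem_univ _) h
    have h2 : ∑ T, (∑ l, (if T = tl l then γ l else 0)) * pr rJ T = ∑ l, γ l * pr rJ (tl l) := by
      simp only [Finset.sum_mul]
      rw [Finset.sum_comm]
      refine Finset.sum_congr rfl fun l _ => ?_
      rw [Finset.sum_eq_single (tl l)]
      · rw [if_pos rfl]
      · intro T _ hT
        rw [if_neg hT, zero_mul]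
      · intro h; exact absurd (Finset.mem_univ _) h
    simp only [hcc, sub_mul, Finset.sum_sub_distrib]
    rw [h1, h2, ← hDf2, hDf]
    ring
  have hzero : ∀ T, cc T = 0 := fun T =>
    pr_lin K0 (DD DE) (DD_K0 hDE) (const_K0 hDE) hr0 hr2 hns Finset.univ cc hccK hsum T (Finset.mem_univ T)
  have hc1 : ∀ i, W i = 0 := by
    intro i
    have h1 := hzero (tl i)
    rw [hcc] at h1
    simp only at h1
    rw [if_neg (htl_ne i), sub_zero, Finset.sum_eq_single i] at h1
    · rw [if_pos rfl, sub_eq_zero] at h1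
      have h2 := hb (tl i)
      rw [h1, hγpr] at h2
      have h3 : a (tl i) * pr rJ (tl i) = (a (tl i) * (ka' i)⁻¹) * (om * r i) := by
        have h4 := hkar i
        have h5 := hka0 i
        rw [hpr_tl, h4]
        field_simp
      rw [h3] at h2
      have h6 : (fQ F q g i).natDegree = (PP F q i.1).natDegree := by rw [fQ, fg_natDegree]
      refine eq_int3 hDE (fQ F q g i) (fg (F i.1) (g i.2)) (fg (q i.1) (g i.2)) (fQ_eq g i)
        (sf_comp _ (hG i.1).sf _) (sf_comp _ (hG i.1).qsf _) (cop_comp _ _ (hG i.1).cop _)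
        (by rw [h6]; exact odd_PP hG i.1) (cQ F q i) (hfam.c0 i) (r i) (hfam.rel i) (W i) ?_
        (a (tl i) * (ka' i)⁻¹) (mul_mem (ha _) (inv_mem (hkaK i))) (by rw [h6]; exact h2)
      have h10 := (hG i.1).odd.pos
      have h7 : (W i).natDegree ≤ (F i.1).natDegree + (q i.1).natDegree - 2 := by
        refine natDegree_sum_le_of_forall_le _ _ fun j _ => ?_
        refine (natDegree_C_mul_le _ _).trans ?_
        rw [natDegree_pow, natDegree_X_add_C, mul_one]
        have h8 := j.2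
        unfold mm at h8
        omega
      rw [fg_natDegree, fg_natDegree]
      have h9 := (hG i.1).deg
      omega
    · intro l' _ hl'
      rw [if_neg]
      intro h
      exact hl' (htl_inj _ _ h).symm
    · intro h; exact absurd (Finset.mem_univ _) h
  have hc2 : (fun l => c (l, Sum.inr ())) = 0 := by
    have h1 := hzero ∅
    rw [hcc] at h1
    simp only at h1
    rw [if_pos trivial, Finset.sum_eq_zero, sub_zero, sub_eq_zero] at h1
    · have h2 := hb ∅
      rw [h1, pr_empty, mul_one, mul_one] at h2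
      exact eq_log hDE g hg hg1 _ (a ∅) (ha _) h2
    · intro l _
      rw [if_neg (htl_ne l).symm]
  funext i
  rcases i with ⟨l, ⟨k, j⟩ | u⟩
  · have h1 := congrArg (fun p : ℚ[X] => p.comp (X - C (g l : ℚ))) (hc1 (k, l))
    simp only [hW, Polynomial.sum_comp, mul_comp, C_comp, pow_comp, add_comp, X_comp, sub_add_cancel, zero_comp] at h1
    have h2 := congrArg (fun p : ℚ[X] => p.coeff j) h1
    simp only [finsetSum_coeff, coeff_zero, coeff_C_mul, coeff_X_pow] at h2
    rw [Finset.sum_eq_single j] at h2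
    · rw [if_pos rfl, mul_one] at h2
      exact h2
    · intro j' _ hj'
      rw [if_neg, mul_zero]
      intro h
      exact hj' (Fin.ext h.symm)
    · intro h; exact absurd (Finset.mem_univ _) h
  · exact congrFun hc2 l

end main

/-- (LIS): functional independence for several curves with poles -/
theorem t_lis (hrt : S_rt) : S_lis := by
  classical
  intro s F q hG hD
  change LI (PP F q) (mm F q)
  intro N g hg hg1
  obtain ⟨DF, DE, hDF, hDE, hcc⟩ := Pool.Agent.Y796.LI.exists_pair ℚ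
  have hfam := fam hG g hrt
  obtain ⟨J, hJ, hT⟩ := exists_J hfam
  choose T hTJ hTK using hT
  have hind := indep hDE hG g hD hg hg1 hrt J hJ T hTJ hTK
  have hfamJ : Fam (fun i : {i // i ∈ J} => fQ F q g i.1) (fun i => cQ F q i.1) (fun i => rQ F q g i.1) :=
    ⟨fun i => hfam.rel i.1, fun i => hfam.c0 i.1⟩
  refine ⟨J, ?_, ?_⟩
  · intro i
    refine ⟨T i, hTJ i, ?_⟩
    have hpos : ∀ i : Fin s × Fin N, 0 < (phi (PP F q i.1) (g i.2)).coeff 0 := by
      intro i
      rw [phi_coeff]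
      exact lc_pos hG i.1
    have h0 : (phi (PP F q i.1) (g i.2) * ∏ j ∈ T i, phi (PP F q j.1) (g j.2)).coeff 0 =
        (phi (PP F q i.1) (g i.2)).coeff 0 * ∏ j ∈ T i, (phi (PP F q j.1) (g j.2)).coeff 0 := by
      rw [mul_coeff_zero, coeff_zero_prod]
    refine sqr_of_mem (Rt (phi (PP F q i.1) (g i.2)) * ∏ j ∈ T i, Rt (phi (PP F q j.1) (g j.2))) _ ?_ ?_ ?_
    · rw [h0]
      have hps : ∀ p q : ℤ[X], ps (p * q) = ps p * ps q := by
        intro p q
        change ((Polynomial.map (Int.castRingHom ℚ) (p * q) : ℚ[X]) : PowerSeries ℚ) = _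
        rw [Polynomial.map_mul, Polynomial.coe_mul]
        rfl
      have hps1 : ps (1 : ℤ[X]) = 1 := by
        change ((Polynomial.map (Int.castRingHom ℚ) 1 : ℚ[X]) : PowerSeries ℚ) = _
        rw [Polynomial.map_one, Polynomial.coe_one]
      have h1 : ∀ S : Finset (Fin s × Fin N), (∏ j ∈ S, Rt (phi (PP F q j.1) (g j.2))) ^ 2 *
          ps (∏ j ∈ S, phi (PP F q j.1) (g j.2)) =
          PowerSeries.C (((∏ j ∈ S, (phi (PP F q j.1) (g j.2)).coeff 0 : ℤ)) : ℚ) := by
        intro S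
        induction S using Finset.induction_on with
        | empty => simp [hps1]
        | insert k S hk ih =>
          rw [Finset.prod_insert hk, Finset.prod_insert hk, Finset.prod_insert hk, hps, Int.cast_mul,
            map_mul, ← ih, ← (hrt _ (hpos k)).1]
          ring
      rw [hps, Int.cast_mul, map_mul, ← h1, ← (hrt _ (hpos i)).1]
      ring
    · rw [h0]
      exact mul_ne_zero (hpos i).ne' (Finset.prod_ne_zero_iff.2 fun j _ => (hpos j).ne')
    · rw [map_mul, map_prod]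
      exact hTK i
  rw [linearIndependent_iff']
  intro S c hsum p₀ hp₀
  set r := rQ F q g with hr
  set rJ := ro fun i : {i // i ∈ J} => r i.1 with hrJ
  set L := Lf K0 rJ with hL
  have hr0 : ∀ o, rJ o ≠ 0 := ro_ne hfamJ
  have hr2 : ∀ o, rJ o ^ 2 ∈ K0 := ro_sq hfamJ
  have hns : ∀ T : Finset (Option {i // i ∈ J}), T.Nonempty → pr rJ T ∉ K0 := ns_sub r J hJ
  have hkaL : ∀ x : Fin N × Tau (mm F q), ka (PP F q) (mm F q) x ∈ L := by
    rintro ⟨l, j | u⟩
    · exact zpow_mem (r_mem K0 (r := rJ) none) _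
    · exact one_mem _
  -- the relation in the field
  have h1 : ∑ p ∈ S, aeval (om ^ 2) (c p) * (∏ i ∈ p.1.1, r i) *
      (p.2.prod fun x e => ka (PP F q) (mm F q) x ^ e) *
      (p.2.prod fun x e => yy (PP F q) (mm F q) g x ^ e) = 0 := by
    have h2 := congrArg th hsum
    rw [map_zero, map_sum] at h2
    rw [← h2]
    refine Finset.sum_congr rfl fun p _ => ?_
    rw [Algebra.smul_def, map_mul, map_mul, map_prod, mul_assoc, mul_assoc]
    congr 1
    · exact (th_poly (c p)).symm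
    · congr 1
      rw [Finsupp.prod, Finsupp.prod, Finsupp.prod, map_prod, ← Finset.prod_mul_distrib]
      refine Finset.prod_congr rfl fun x _ => ?_
      rw [map_pow]
      have h3 := ka_yy (PP F q) (mm F q) g x
      rw [← mul_pow]
      congr 1
      exact h3.symm
  have hco : ∀ p : {T : Finset (Fin s × Fin N) // T ⊆ J} × (Fin N × Tau (mm F q) →₀ ℕ),
      aeval (om ^ 2) (c p) * (∏ i ∈ p.1.1, r i) * (p.2.prod fun x e => ka (PP F q) (mm F q) x ^ e) ∈ L := by
    intro p
    refine mul_mem (mul_mem (K_le_Lf K0 (poly2_K0 _)) ?_) ?_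
    · exact prod_mem fun i hi => r_mem K0 (r := rJ) (some ⟨i, p.1.2 hi⟩)
    · rw [Finsupp.prod]
      exact prod_mem fun x _ => pow_mem (hkaL x) _
  set P : MvPolynomial (Fin N × Tau (mm F q)) L :=
    ∑ p ∈ S, MvPolynomial.monomial p.2 (⟨_, hco p⟩ : L) with hP
  have h2 : MvPolynomial.aeval (yy (PP F q) (mm F q) g) P = 0 := by
    rw [hP, map_sum, ← h1]
    refine Finset.sum_congr rfl fun p _ => ?_
    rw [MvPolynomial.aeval_monomial]
    rfl
  have h3 : P = 0 := hind.eq_zero_of_aeval_eq_zero _ h2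
  -- the coefficient
  set s' := S.filter (fun p => p.2 = p₀.2) with hs'
  have h4 := congrArg (MvPolynomial.coeff p₀.2) h3
  rw [hP, MvPolynomial.coeff_sum, MvPolynomial.coeff_zero] at h4
  simp only [MvPolynomial.coeff_monomial] at h4
  rw [← Finset.sum_filter] at h4
  have h5 := congrArg (fun x : L => (x : EE ℚ)) h4
  simp only [ZeroMemClass.coe_zero, AddSubmonoidClass.coe_finsetSum] at h5
  have hκ : (p₀.2.prod fun x e => ka (PP F q) (mm F q) x ^ e) ≠ 0 := by
    rw [Finsupp.prod]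
    exact Finset.prod_ne_zero_iff.2 fun x _ => pow_ne_zero _ (ka_ne _ _ x)
  set up : Finset (Fin s × Fin N) → Finset (Option {i // i ∈ J}) :=
    fun T => (T.subtype fun i => i ∈ J).map Function.Embedding.some with hup
  have h6 : ∑ p ∈ s', aeval (om ^ 2) (c p) * pr rJ (up p.1.1) = 0 := by
    apply (mul_eq_zero.1 _).resolve_right hκ
    rw [Finset.sum_mul, ← h5]
    refine Finset.sum_congr rfl fun p hp => ?_
    rw [hup]
    simp only
    rw [prod_so r J p.1.1 p.1.2, (Finset.mem_filter.1 hp).2]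
  -- linear independence of the products of the square roots
  set dn : Finset (Option {i // i ∈ J}) → {T : Finset (Fin s × Fin N) // T ⊆ J} := fun T =>
    ⟨(Finset.eraseNone T).map (Function.Embedding.subtype fun i => i ∈ J), by
      intro x hx
      obtain ⟨y, _, rfl⟩ := Finset.mem_map.1 hx
      exact y.2⟩ with hdn
  have hdu : ∀ T : {T : Finset (Fin s × Fin N) // T ⊆ J}, dn (up T.1) = T := by
    intro T
    apply Subtype.ext
    rw [hdn, hup]
    simp only
    rw [Finset.eraseNone_map_some, Finset.subtype_map_of_mem (fun x hx => T.2 hx)]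
  have hinj : Set.InjOn (fun p : {T : Finset (Fin s × Fin N) // T ⊆ J} × (Fin N × Tau (mm F q) →₀ ℕ) =>
      up p.1.1) s' := by
    intro p hp q hq hpq
    have e1 : p.1 = q.1 := by
      rw [← hdu p.1, ← hdu q.1]
      exact congrArg dn hpq
    have e2 : p.2 = p₀.2 := (Finset.mem_filter.1 hp).2
    have e3 : q.2 = p₀.2 := (Finset.mem_filter.1 hq).2
    exact Prod.ext e1 (e2.trans e3.symm)
  set a : Finset (Option {i // i ∈ J}) → EE ℚ := fun T => aeval (om ^ 2) (c (dn T, p₀.2)) with ha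
  have h7 : ∑ T ∈ s'.image (fun p => up p.1.1), a T * pr rJ T = 0 := by
    rw [Finset.sum_image hinj, ← h6]
    refine Finset.sum_congr rfl fun p hp => ?_
    have e2 : p.2 = p₀.2 := (Finset.mem_filter.1 hp).2
    simp only [ha, hdu]
    rw [← e2]
  have h8 := pr_lin K0 (DD DE) (DD_K0 hDE) (const_K0 hDE) hr0 hr2 hns _ a
    (fun T => poly2_K0 _) h7 (up p₀.1.1)
    (Finset.mem_image.2 ⟨p₀, Finset.mem_filter.2 ⟨hp₀, rfl⟩, rfl⟩)
  simp only [ha, hdu] at h8
  rw [← th_poly] at h8
  have h9 := th_inj (h8.trans (map_zero th).symm)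
  exact Polynomial.coe_injective _ (by rw [h9, Polynomial.coe_zero])

end Pool.Agent.Y67.SA
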